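import Pool.Agent.W323.PT.Stm

/-! The combinatorial theorem, from its parts. -/

set_option autoImplicit false

namespace Pool.Agent.W479.PT

open Pool.Agent.W323.PT

theorem Hom.mono {m n : ℕ} (h : m ≤ n) {P : Bool → ℕ → Pt} {σ : Bool → Bool → Bool → Bool}
    (hP : Hom n P σ) : Hom m P σ :=
  fun i j k hij hjk hk b1 b2 b3 => hP i j k hij hjk (hk.trans_le h) b1 b2 b3

theorem o_refl (a b c : Pt) : o (a.1, -a.2) (b.1, -b.2) (c.1, -c.2) = - o a b c := by
  unfold o; ring

theorem PatN.mono (hS : S_Sub) {m n : ℕ} (h : m ≤ n) {P : Bool → ℕ → Pt} (hP : PatN m P) :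
    PatN n P :=
  hS m n P (fun i => i) (fun _ _ h _ => h) (fun _ hi => hi.trans_le h) hP

theorem cc : S_Ram → S_Refl → S_Sub → S_Class → S_All → S_Blk → S_CC := by
  intro hRam hRefl hSub hClass hAll hBlk
  obtain ⟨M, hM⟩ := hRam (Bool → Bool → Bool → Bool) 96
  refine ⟨M, fun P hP => ?_⟩
  classical
  obtain ⟨g, hg, hgM, col, hcol⟩ := hM (fun i j k b1 b2 b3 => decide (0 < o (P b1 i) (P b2 j) (P b3 k)))
  refine hSub 96 M P g hg hgM ?_
  have hHom : Hom 96 (fun b i => P b (g i)) col := by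
    intro i j k hij hjk hk b1 b2 b3
    have h1 := congrFun (congrFun (congrFun (hcol i j k hij hjk hk) b1) b2) b3
    constructor
    · intro h
      rw [h] at h1
      exact of_decide_eq_true h1
    · intro h
      rw [h] at h1
      have h2 : ¬ 0 < o (P b1 (g i)) (P b2 (g j)) (P b3 (g k)) := of_decide_eq_false h1
      have h3 := hP (g i) (g j) (g k) (hg i j hij (hjk.trans hk)) (hg j k hjk hk) (hgM k hk) b1 b2 b3
      exact lt_of_le_of_ne (not_lt.1 h2) h3
  rcases hClass _ col (Hom.mono (by norm_num) hHom) with h | ⟨a, ha⟩ | ⟨a, b, c, d, h⟩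
  · exact PatN.mono hSub (by norm_num) h
  · have hcol' : col = fun _ _ _ => a := by
      funext b1 b2 b3; exact ha b1 b2 b3
    subst hcol'
    have h20 := Hom.mono (m := 20) (by norm_num) hHom
    cases a with
    | true => exact PatN.mono hSub (m := 20) (by norm_num) (hAll _ h20)
    | false =>
      refine PatN.mono hSub (m := 20) (by norm_num) (hRefl 20 _ (hAll _ ?_))
      intro i j k hij hjk hk b1 b2 b3
      refine ⟨fun _ => ?_, fun h => by simp at h⟩
      have h1 := (h20 i j k hij hjk hk b1 b2 b3).2 rfl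
      change 0 < o ((P b1 (g i)).1, -(P b1 (g i)).2) ((P b2 (g j)).1, -(P b2 (g j)).2)
        ((P b3 (g k)).1, -(P b3 (g k)).2)
      rw [o_refl]
      linarith
  · rw [h] at hHom
    exact hBlk _ a b c d hHom

end Pool.Agent.W479.PT
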